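import Pool.Agent.Helper64.Rig.Basics

/-!
# The coordinate ring of the Fermat quintic is integrally closed (MP_148db9_ag)
-/

namespace Pool.Agent.Helper75.Rig

open Module Pool.Agent.Helper64.Rig
open scoped IntermediateField

section Lin

open MvPolynomial

theorem prime_lin (c : ℂ) : Prime (X 0 + C c * X 1 : MvPolynomial (Fin 2) ℂ) := by
  have h1 : coeff (Finsupp.single 0 1) (X 0 + C c * X 1 : MvPolynomial (Fin 2) ℂ) = 1 := by
    rw [coeff_add, coeff_C_mul, coeff_X, coeff_X, if_pos rfl, if_neg, mul_zero, add_zero]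
    intro h
    have := Finsupp.single_left_injective (one_ne_zero (α := ℕ)) h
    exact absurd this (by decide)
  have hne : (X 0 + C c * X 1 : MvPolynomial (Fin 2) ℂ) ≠ 0 := by
    intro h0
    rw [h0, coeff_zero] at h1
    exact zero_ne_one h1
  have hhom : (X 0 + C c * X 1 : MvPolynomial (Fin 2) ℂ).IsHomogeneous 1 := by
    refine (isHomogeneous_X _ _).add ?_
    have := (isHomogeneous_C (Fin 2) c).mul (isHomogeneous_X ℂ (1 : Fin 2))
    rwa [zero_add] at this
  refine (irreducible_of_totalDegree_eq_one (hhom.totalDegree hne) fun y hy => ?_).prime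
  have := hy (Finsupp.single 0 1)
  rw [h1] at this
  exact isUnit_of_dvd_one this

theorem not_sq_dvd {c : ℂ} (hc : c ≠ 0) :
    ¬ (X 0 + C c * X 1 : MvPolynomial (Fin 2) ℂ) ^ 2 ∣ X 0 ^ 5 + X 1 ^ 5 := by
  rintro ⟨h, hh⟩
  have h1 := congrArg (fun G => eval ![-c, 1] (pderiv 0 G)) hh
  simp [pderiv_X] at h1
  exact hc h1

theorem isUnit_five : IsUnit (5 : MvPolynomial (Fin 2) ℂ) := by
  have h : IsUnit (C (5 : ℂ) : MvPolynomial (Fin 2) ℂ) :=
    (IsUnit.mk0 (5 : ℂ) (by norm_num)).map (C : ℂ →+* MvPolynomial (Fin 2) ℂ)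
  rwa [map_ofNat] at h

end Lin

open Polynomial

section Key

variable {R F K : Type} [CommRing R] [IsDomain R]

theorem eis_poly {D π : R} (hπ : Prime π) (hd : π ∣ D) (hs : ¬ π ^ 2 ∣ D) :
    (X ^ 5 + C D : R[X]).IsEisensteinAt (Ideal.span {π}) := by
  have hnd : (X ^ 5 + C D : R[X]).natDegree = 5 := by
    rw [natDegree_X_pow_add_C]
  refine ⟨?_, ?_, ?_⟩
  · have : (X ^ 5 + C D : R[X]).leadingCoeff = 1 := leadingCoeff_X_pow_add_C (by norm_num)
    rw [this, Ideal.mem_span_singleton]
    exact hπ.not_dvd_one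
  · intro n hn
    rw [hnd] at hn
    rw [coeff_add, coeff_X_pow, coeff_C, if_neg (by omega), zero_add]
    split_ifs with h0
    · exact Ideal.mem_span_singleton.2 hd
    · exact Ideal.zero_mem _
  · rw [coeff_add, coeff_X_pow, coeff_C, if_neg (by norm_num), zero_add, if_pos rfl,
      Ideal.span_singleton_pow, Ideal.mem_span_singleton]
    exact hs

variable [IsIntegrallyClosed R] [Field F] [Algebra R F]
  [IsFractionRing R F] [Field K] [Algebra R K] [Algebra F K] [IsScalarTower R F K]

theorem minpoly_eq {D π : R} (hπ : Prime π) (hd : π ∣ D) (hs : ¬ π ^ 2 ∣ D) {L : Type} [Field L]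
    [Algebra R L] [Algebra F L] [IsScalarTower R F L]
    {y : L} (hy : y ^ 5 + algebraMap R L D = 0) :
    minpoly R y = X ^ 5 + C D := by
  have hmon : (X ^ 5 + C D : R[X]).Monic := monic_X_pow_add_C _ (by norm_num)
  have hnd : (X ^ 5 + C D : R[X]).natDegree = 5 := natDegree_X_pow_add_C
  have hint : IsIntegral R y := ⟨X ^ 5 + C D, hmon, by simpa using hy⟩
  have hirr : Irreducible (X ^ 5 + C D : R[X]) :=
    (eis_poly hπ hd hs).irreducible ((Ideal.span_singleton_prime hπ.ne_zero).2 hπ)
      hmon.isPrimitive (by rw [hnd]; norm_num)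
  have hfs : FaithfulSMul R L := by
    rw [faithfulSMul_iff_algebraMap_injective, IsScalarTower.algebraMap_eq R F L]
    exact (algebraMap F L).injective.comp (IsFractionRing.injective R F)
  have hdvd : minpoly R y ∣ X ^ 5 + C D :=
    minpoly.isIntegrallyClosed_dvd hint (by simpa using hy)
  have hassoc := (hirr.dvd_iff.1 hdvd).resolve_left (minpoly.not_isUnit R y)
  exact (eq_of_monic_of_associated (minpoly.monic hint) hmon hassoc.symm)

theorem key [CharZero F] {D : R} {π : Fin 5 → R} (hD : ∏ k, π k = D) (hπ : ∀ k, Prime (π k))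
    (hs : ∀ k, ¬ π k ^ 2 ∣ D) (h5 : IsUnit (5 : R)) {y : K} (hy : y ^ 5 + algebraMap R K D = 0)
    {g : K} (hg : g ∈ F⟮y⟯) (hint : IsIntegral R g) : g ∈ Algebra.adjoin R {y} := by
  have hdvd : ∀ k, π k ∣ D := fun k => hD ▸ Finset.dvd_prod_of_mem π (Finset.mem_univ k)
  have hinty : IsIntegral R y := ⟨X ^ 5 + C D, monic_X_pow_add_C _ (by norm_num), by simpa using hy⟩
  have hintyF : IsIntegral F y := hinty.tower_top
  set L := F⟮y⟯ with hL
  let B : PowerBasis F L := IntermediateField.adjoin.powerBasis hintyF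
  have hBgen : B.gen = IntermediateField.AdjoinSimple.gen F y :=
    IntermediateField.adjoin.powerBasis_gen hintyF
  have hgenK : algebraMap L K B.gen = y := by
    rw [hBgen]; exact IntermediateField.AdjoinSimple.algebraMap_gen F y
  have hinj : Function.Injective (algebraMap L K) := (algebraMap L K).injective
  have htow : IsScalarTower R L K := IsScalarTower.of_algebraMap_eq fun r => rfl
  have htow' : IsScalarTower R F L := inferInstance
  have hyL : B.gen ^ 5 + algebraMap R L D = 0 := by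
    apply hinj
    rw [map_add, map_pow, hgenK, map_zero, ← IsScalarTower.algebraMap_apply R L K]
    exact hy
  have hmR : minpoly R B.gen = X ^ 5 + C D := minpoly_eq (F := F) (hπ 0) (hdvd 0) (hs 0) hyL
  have hBint : IsIntegral R B.gen :=
    ⟨X ^ 5 + C D, monic_X_pow_add_C _ (by norm_num), by simpa using hyL⟩
  have hmF : minpoly F B.gen = X ^ 5 + C (algebraMap R F D) := by
    rw [minpoly.isIntegrallyClosed_eq_field_fractions' F hBint, hmR]
    simp
  have hfin : FiniteDimensional F L := B.finite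
  have hdim : B.dim = 5 := by
    rw [← B.natDegree_minpoly, hmF, natDegree_X_pow_add_C]
  have hfr : finrank F L = 5 := by rw [B.finrank, hdim]
  have hnorm : Algebra.norm F B.gen = - algebraMap R F D := by
    rw [Algebra.PowerBasis.norm_gen_eq_coeff_zero_minpoly, hdim, hmF]
    simp [coeff_X_pow]
    ring
  have hdisc : Algebra.discr F B.basis = algebraMap R F (5 ^ 5 * D ^ 4) := by
    rw [Algebra.discr_powerBasis_eq_norm, hfr, hmF]
    simp only [derivative_add, derivative_X_pow, derivative_C, add_zero, map_mul, map_pow, aeval_X,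
      aeval_C, hnorm]
    simp only [map_natCast]
    have : Algebra.norm F ((5 : ℕ) : L) = 5 ^ 5 := by
      have := Algebra.norm_algebraMap (S := L) (5 : F)
      rw [hfr, map_ofNat] at this
      rw [← this]
      norm_num
    rw [this, map_ofNat]
    ring
  obtain ⟨g', hg'⟩ : ∃ g' : L, algebraMap L K g' = g := ⟨⟨g, hg⟩, rfl⟩
  have hg'int : IsIntegral R g' := by
    rw [← hg'] at hint
    exact (isIntegral_algebraMap_iff hinj).1 hint
  have h1 := Algebra.discr_mul_isIntegral_mem_adjoin (K := F) hBint hg'int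
  rw [hdisc, algebraMap_smul, mul_smul] at h1
  have h2 : D ^ 4 • g' ∈ Algebra.adjoin R ({B.gen} : Set L) := by
    obtain ⟨u, hu⟩ := h5
    have : D ^ 4 • g' = ((↑(u⁻¹) : R) ^ 5) • ((5 : R) ^ 5 • D ^ 4 • g') := by
      rw [smul_smul, ← hu, ← mul_pow]
      simp
    rw [this]
    exact Subalgebra.smul_mem _ h1 _
  have h3 : ∀ (s : Finset (Fin 5)) (z : L), IsIntegral R z →
      (∏ k ∈ s, π k ^ 4) • z ∈ Algebra.adjoin R ({B.gen} : Set L) →
      z ∈ Algebra.adjoin R ({B.gen} : Set L) := by
    intro s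
    induction s using Finset.induction_on with
    | empty => intro z _ hz; simpa using hz
    | insert a s ha ih =>
      intro z hz hmem
      rw [Finset.prod_insert ha, mul_smul] at hmem
      refine ih z hz ?_
      have hz' : IsIntegral R ((∏ k ∈ s, π k ^ 4) • z) := hz.smul _
      refine mem_adjoin_of_smul_prime_pow_smul_of_minpoly_isEisensteinAt (K := F) (hπ a) hBint hz'
        hmem ?_
      rw [hmR]
      exact eis_poly (hπ a) (hdvd a) (hs a)
  have h4 : g' ∈ Algebra.adjoin R ({B.gen} : Set L) := by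
    refine h3 Finset.univ g' hg'int ?_
    rwa [Finset.prod_pow, hD]
  have h5 : (IsScalarTower.toAlgHom R L K) g' ∈
      (Algebra.adjoin R ({B.gen} : Set L)).map (IsScalarTower.toAlgHom R L K) :=
    Subalgebra.mem_map.2 ⟨g', h4, rfl⟩
  rw [AlgHom.map_adjoin, Set.image_singleton] at h5
  simpa [hgenK, hg'] using h5

end Key


variable {K : Type} [Field K] [Algebra ℂ K]

/-- The coordinate ring of the Fermat quintic is integrally closed. -/
theorem pf_Normal : StmtNormal := by
  intro K _ _ ζ x h g hg hint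
  let φ : MvPolynomial (Fin 2) ℂ →ₐ[ℂ] K := MvPolynomial.aeval ![pr x 1, pr x 2]
  let _ : Algebra (MvPolynomial (Fin 2) ℂ) K := φ.toRingHom.toAlgebra
  have hφ : ∀ G, algebraMap (MvPolynomial (Fin 2) ℂ) K G = φ G := fun _ => rfl
  have : FaithfulSMul (MvPolynomial (Fin 2) ℂ) K := by
    rw [faithfulSMul_iff_algebraMap_injective]
    exact h.indep
  let _ : Algebra (FractionRing (MvPolynomial (Fin 2) ℂ)) K :=
    FractionRing.liftAlgebra (MvPolynomial (Fin 2) ℂ) K
  have : IsScalarTower (MvPolynomial (Fin 2) ℂ) (FractionRing (MvPolynomial (Fin 2) ℂ)) K :=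
    FractionRing.isScalarTower_liftAlgebra _ _
  have hX : ∀ c : ℂ, algebraMap (MvPolynomial (Fin 2) ℂ) K (MvPolynomial.C c) = algebraMap ℂ K c := by
    intro c; rw [hφ]; simp [φ]
  have hX0 : algebraMap (MvPolynomial (Fin 2) ℂ) K (MvPolynomial.X 0) = pr x 1 := by
    rw [hφ]; simp [φ]
  have hX1 : algebraMap (MvPolynomial (Fin 2) ℂ) K (MvPolynomial.X 1) = pr x 2 := by
    rw [hφ]; simp [φ]
  have hζ0 : ζ ≠ 0 := h.prim.ne_zero (by norm_num)
  have hy : pr x 0 ^ 5 + algebraMap (MvPolynomial (Fin 2) ℂ) K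
      (MvPolynomial.X 0 ^ 5 + MvPolynomial.X 1 ^ 5) = 0 := by
    rw [map_add, map_pow, map_pow, hX0, hX1, ← add_assoc]
    exact fermat h
  have hinty : IsIntegral (MvPolynomial (Fin 2) ℂ) (pr x 0) :=
    ⟨X ^ 5 + C (MvPolynomial.X 0 ^ 5 + MvPolynomial.X 1 ^ 5),
      monic_X_pow_add_C _ (by norm_num), by simpa using hy⟩
  have hpr : ∀ i, IsIntegral (MvPolynomial (Fin 2) ℂ) (pr x i) := by
    intro i
    fin_cases i
    · exact hinty
    · exact hX0 ▸ isIntegral_algebraMap
    · exact hX1 ▸ isIntegral_algebraMap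
  -- the elements of `AB x` are integral over `C[p₁, p₂]`
  have hABint : ∀ f ∈ AB x, IsIntegral (MvPolynomial (Fin 2) ℂ) f := by
    intro f hf
    refine Algebra.adjoin_induction (p := fun f _ => IsIntegral (MvPolynomial (Fin 2) ℂ) f)
      ?_ ?_ ?_ ?_ hf
    · rintro _ ⟨i, rfl⟩
      exact hpr i
    · intro c
      rw [← hX]
      exact isIntegral_algebraMap
    · intro a b _ _ ha hb
      exact ha.add hb
    · intro a b _ _ ha hb
      exact ha.mul hb
  have hgint : IsIntegral (MvPolynomial (Fin 2) ℂ) g := by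
    obtain ⟨P, hP, hPg⟩ := hint
    let ψ : AB x →+* integralClosure (MvPolynomial (Fin 2) ℂ) K :=
      { toFun := fun a => ⟨a.1, hABint a.1 a.2⟩
        map_one' := rfl
        map_mul' := fun _ _ => rfl
        map_zero' := rfl
        map_add' := fun _ _ => rfl }
    have h2 : IsIntegral (integralClosure (MvPolynomial (Fin 2) ℂ) K) g := by
      refine ⟨P.map ψ, hP.map ψ, ?_⟩
      rw [eval₂_map]
      exact hPg
    exact isIntegral_trans g h2
  -- the elements of `KB x` are in `F(p₀)`
  have hABF : ∀ f ∈ AB x, f ∈ IntermediateField.adjoin (FractionRing (MvPolynomial (Fin 2) ℂ))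
      ({pr x 0} : Set K) := by
    have hR : ∀ G : MvPolynomial (Fin 2) ℂ, algebraMap (MvPolynomial (Fin 2) ℂ) K G ∈
        IntermediateField.adjoin (FractionRing (MvPolynomial (Fin 2) ℂ)) ({pr x 0} : Set K) := by
      intro G
      rw [IsScalarTower.algebraMap_apply _ (FractionRing (MvPolynomial (Fin 2) ℂ)) K]
      exact IntermediateField.algebraMap_mem _ _
    intro f hf
    refine Algebra.adjoin_induction (p := fun f _ => f ∈ IntermediateField.adjoin
      (FractionRing (MvPolynomial (Fin 2) ℂ)) ({pr x 0} : Set K)) ?_ ?_ ?_ ?_ hf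
    · rintro _ ⟨i, rfl⟩
      fin_cases i
      · exact IntermediateField.mem_adjoin_simple_self _ _
      · exact hX0 ▸ hR _
      · exact hX1 ▸ hR _
    · intro c
      rw [← hX]
      exact hR _
    · intro a b _ _ ha hb
      exact add_mem ha hb
    · intro a b _ _ ha hb
      exact mul_mem ha hb
  have hgF : g ∈ IntermediateField.adjoin (FractionRing (MvPolynomial (Fin 2) ℂ))
      ({pr x 0} : Set K) := by
    obtain ⟨a, ha, b, hb, -, rfl⟩ := mem_KB_div hg
    exact div_mem (hABF a ha) (hABF b hb)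
  have hk := key (R := MvPolynomial (Fin 2) ℂ) (F := FractionRing (MvPolynomial (Fin 2) ℂ))
    (D := MvPolynomial.X 0 ^ 5 + MvPolynomial.X 1 ^ 5)
    (π := fun k : Fin 5 => MvPolynomial.X 0 + MvPolynomial.C (ζ ^ (k : ℕ)) * MvPolynomial.X 1)
    (prod_add_zeta h.prim _ _) (fun k => prime_lin _)
    (fun k => not_sq_dvd (pow_ne_zero _ hζ0)) isUnit_five hy hgF hgint
  refine Algebra.adjoin_induction (p := fun f _ => f ∈ AB x) ?_ ?_ ?_ ?_ hk
  · rintro _ rfl
    exact Algebra.subset_adjoin ⟨0, rfl⟩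
  · intro G
    rw [hφ, mem_AB]
    refine ⟨MvPolynomial.rename ![1, 2] G, ?_⟩
    rw [MvPolynomial.aeval_rename]
    congr 2
    funext i
    fin_cases i <;> rfl
  · intro a b _ _ ha hb
    exact add_mem ha hb
  · intro a b _ _ ha hb
    exact mul_mem ha hb

end Pool.Agent.Helper75.Rig
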